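import Pool.Agent.N332.GK.Defs
import Pool.Agent.N169.LS.KS3

/-!
# Project GK, part A6: all even powers of `f`
-/

set_option autoImplicit false

namespace Pool.Agent.N878.GK

open Finset Pool.Agent.H384R3.SPk Pool.Agent.N356.SP Pool.Agent.N332.GK

variable {Γ R : Type*} [AddCommGroup Γ] [CommRing R] [Algebra ℝ R] {K : Cone Γ R}
  {L : R →ₗ[ℝ] ℝ} {C : Finset Γ} {θ : Γ → Γ → ℝ} {φ : Γ → R}

lemma cc_nn {j : ℝ} (hj : 6 ≤ j) : 0 ≤ cc j := by
  unfold cc
  have h0 : 0 < j := by linarith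
  have h1 : 1 / (2 * j) ≤ 1 := by rw [div_le_one (by linarith)]; linarith
  have h2 : 1 / j ≤ 1 := by rw [div_le_one h0]; linarith
  have h3 : 3 / (2 * j) ≤ 1 := by rw [div_le_one (by linarith)]; linarith
  have := sub_nonneg.2 h1
  have := sub_nonneg.2 h2
  have := sub_nonneg.2 h3
  positivity

/-- A6: all even powers of `f` -/
theorem L_GA
    (HR : ∀ {L : R →ₗ[ℝ] ℝ}, IsFun K L → ∀ {j : ℕ}, 2 ≤ j →
      (2 * (j : ℝ) - 1) / j * L (muA C φ * fA C φ ^ (2 * j - 2)) +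
        cc j * L (wA C θ φ * fA C φ ^ (2 * j - 4)) ≤ L (fA C φ ^ (2 * j)))
    (H8 : ∀ {L : R →ₗ[ℝ] ℝ}, IsFun K L → 35 / 8 * L (muA C φ ^ 4) +
      20 / 3 * L (muA C φ ^ 2 * wA C θ φ) + 32 / 75 * L (wA C θ φ ^ 2) ≤ L (fA C φ ^ 8))
    (H10 : ∀ {L : R →ₗ[ℝ] ℝ}, IsFun K L → 63 / 8 * L (muA C φ ^ 5) +
      140 / 9 * L (muA C φ ^ 3 * wA C θ φ) + 32 / 15 * L (muA C φ * wA C θ φ ^ 2) ≤
        L (fA C φ ^ 10))
    (hL : IsFun K L) (h : GoodC C θ) (hφ : ∀ c, φ c ∈ K.P c) (i : ℕ) :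
    L (GA (muA C φ) (wA C θ φ) i) ≤ L (fA C φ ^ (2 * (i + 4))) := by
  have key : ∀ i : ℕ, ∀ L : R →ₗ[ℝ] ℝ, IsFun K L →
      L (GA (muA C φ) (wA C θ φ) i) ≤ L (fA C φ ^ (2 * (i + 4))) := by
    intro i
    induction i using Nat.twoStepInduction with
    | zero =>
      intro L hL
      have h1 := H8 hL
      rw [GA, map_add, map_add, map_smul, map_smul, map_smul]
      exact h1
    | one =>
      intro L hL
      have h1 := H10 hL
      rw [GA, map_add, map_add, map_smul, map_smul, map_smul]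
      exact h1
    | more i ih0 ih1 =>
      intro L hL
      have h1 := ih1 _ (Pool.Agent.N169.LS.isFun_mul hL (Pool.Agent.N169.LS.muA_mem (C := C) hφ))
      have h2 := ih0 _ (Pool.Agent.N169.LS.isFun_mul hL
        (Pool.Agent.N169.LS.wA_mem (C := C) hφ h.nn))
      have h3 := HR hL (j := i + 6) (by omega)
      rw [LinearMap.comp_apply, LinearMap.comp_apply, LinearMap.mulLeft_apply,
        LinearMap.mulLeft_apply] at h1 h2
      have e1 : 2 * (i + 6) - 2 = 2 * (i + 1 + 4) := by omega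
      have e2 : 2 * (i + 6) - 4 = 2 * (i + 4) := by omega
      have e3 : 2 * (i + 2 + 4) = 2 * (i + 6) := by omega
      have e4 : ((i + 6 : ℕ) : ℝ) = (i : ℝ) + 6 := by push_cast; ring
      rw [e1, e2, e4] at h3
      have hi : (6 : ℝ) ≤ (i : ℝ) + 6 := by have := Nat.cast_nonneg (α := ℝ) i; linarith
      have c1 : 0 ≤ (2 * ((i : ℝ) + 6) - 1) / ((i : ℝ) + 6) := by
        apply div_nonneg <;> linarith
      have c2 := cc_nn hi
      rw [e3, GA, map_add, map_smul, map_smul, smul_eq_mul, smul_eq_mul]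
      refine (add_le_add (mul_le_mul_of_nonneg_left h1 c1)
        (mul_le_mul_of_nonneg_left h2 c2)).trans h3
  exact key i L hL

end Pool.Agent.N878.GK
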